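import Pool.Agent.V1166.PS.Main

/-!
# A category of coefficients whose diagram categories detect the Parry-Sullivan number

For the category of topological spaces (with disjoint unions as coproducts) the category of
diagrams with the coproduct condition of an irreducible finite directed graph determines the
Parry-Sullivan number of the graph. The definitions (`FinGraph`, `FinGraph.adj`,
`FinGraph.parrySullivan`, `FinGraph.Irreducible`, `DiagCoprod`, `DiagCoprod.Hom`) are in
`Pool.Agent.V1166.PS.Defs`.
-/

set_option autoImplicit false

namespace Pool.Agent.Results.MP_b5e7a1_al.TopologicalSpaces

open CategoryTheory CategoryTheory.Limits Pool.Agent.V1166.PS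

/-- The property asked for in the problem, for a category `C`: equivalence of the diagram
categories of two irreducible finite directed graphs implies equality of their Parry-Sullivan
numbers. (It is stated for all irreducible graphs, trivial or not.) -/
def DetectsParrySullivan (C : Type 1) [Category.{0} C] : Prop :=
  ∀ G H : FinGraph, G.Irreducible → H.Irreducible →
    Nonempty (DiagCoprod C G ≌ DiagCoprod C H) → G.parrySullivan = H.parrySullivan

/-- **Main theorem.** There is a category with binary coproducts which detects the Parry-Sullivan
number; the category of topological spaces and continuous maps is one. -/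
theorem result :
    (HasBinaryCoproducts TopCat.{0} ∧ DetectsParrySullivan TopCat.{0}) ∧
    ∃ (C : Type 1) (_ : Category.{0} C), HasBinaryCoproducts C ∧ DetectsParrySullivan C := by
  have h : HasBinaryCoproducts TopCat.{0} ∧ DetectsParrySullivan TopCat.{0} :=
    ⟨inferInstance, fun _ _ hG hH he => main hG hH he⟩
  exact ⟨h, TopCat.{0}, inferInstance, h⟩

end Pool.Agent.Results.MP_b5e7a1_al.TopologicalSpaces
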